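import Mathlib
import Pool.Agent.Helper24.FacDensity
import Pool.Agent.Results.MP_9a49ed_nt.OrderD4

set_option autoImplicit false

namespace Pool.Agent.Results.MP_0b7501_nt.OrderFourFiveSix

/-- `m` has a representation of length `k`: a set of `k` positive integers with largest element
`m` such that the product of the factorials of its elements is a perfect square. -/
def HasRep (m k : ℕ) : Prop :=
  ∃ s : Finset ℕ, s.card = k ∧ m ∈ s ∧ (∀ a ∈ s, 1 ≤ a ∧ a ≤ m) ∧
    IsSquare (∏ a ∈ s, a.factorial)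

/-- `m ∈ D_k`: the least `j ≥ 2` for which `m` has a representation of length `j` is `k`. -/
def InD (k m : ℕ) : Prop :=
  2 ≤ k ∧ HasRep m k ∧ ∀ j, 2 ≤ j → j < k → ¬ HasRep m j

open Classical in
/-- the counting function `N_k(n)` of `D_k` -/
noncomputable def N (k n : ℕ) : ℕ := ((Finset.Icc 1 n).filter (fun m => InD k m)).card

theorem hasRep_iff (m k : ℕ) : HasRep m k ↔ N140ae710.HasRepresentation m k := Iff.rfl

theorem inD_iff (k m : ℕ) : InD k m ↔ N140ae710.HasMinimum m k := Iff.rfl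

theorem N_eq (k n : ℕ) : N k n = N140ae710.countD k n := by
  unfold N N140ae710.countD
  congr

theorem N_le (k n : ℕ) : N k n ≤ n := by
  classical
  unfold N
  refine (Finset.card_filter_le _ _).trans ?_
  rw [Nat.card_Icc, Nat.add_sub_cancel]

/-- The set `D_4` in the cumulative description is contained in `D_4` as defined here. -/
theorem inD_four_of {m : ℕ} (h : MP_9a49ed_nt.OrderD4.InD 4 m) : InD 4 m := by
  obtain ⟨⟨s, hs1, hs2, hs3, hs4, hs5⟩, h2⟩ := h
  refine ⟨by norm_num, ⟨s, ?_, hs3, hs4, hs5⟩, ?_⟩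
  · by_contra hne
    exact h2 ⟨s, hs1, by omega, hs3, hs4, hs5⟩
  · rintro j hj2 hj4 ⟨s', t1, t2, t3, t4⟩
    exact h2 ⟨s', by omega, by omega, t2, t3, t4⟩

theorem N_four_ge (n : ℕ) : MP_9a49ed_nt.OrderD4.countD 4 n ≤ N 4 n := by
  classical
  unfold MP_9a49ed_nt.OrderD4.countD N
  apply Finset.card_le_card
  intro m hm
  rw [Finset.mem_filter] at hm ⊢
  exact ⟨hm.1, inD_four_of hm.2⟩

/-- For `k = 4, 5, 6` the counting function `N_k(n)` has linear order of growth. -/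
theorem result : ∀ k : ℕ, k = 4 ∨ k = 5 ∨ k = 6 → ∃ c : ℝ, 0 < c ∧ ∃ n₀ : ℕ, ∀ n : ℕ, n₀ ≤ n →
    c * (n : ℝ) ≤ (N k n : ℝ) ∧ (N k n : ℝ) ≤ (n : ℝ) := by
  intro k hk
  have hup : ∀ n : ℕ, (N k n : ℝ) ≤ (n : ℝ) := fun n => by exact_mod_cast N_le k n
  rcases hk with rfl | rfl | rfl
  · obtain ⟨c, hc, n₀, h⟩ := MP_9a49ed_nt.OrderD4.result
    refine ⟨c, hc, n₀, fun n hn => ⟨(h n hn).1.trans ?_, hup n⟩⟩
    exact_mod_cast N_four_ge n
  · obtain ⟨c, hc, n₀, h⟩ := Pool.Agent.Helper24.FacFive.main_density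
    refine ⟨c, hc, n₀, fun n hn => ⟨?_, hup n⟩⟩
    rw [N_eq]
    exact h n hn
  · obtain ⟨c, hc, n₀, h⟩ := Pool.Agent.Helper601.main_density
    refine ⟨c, hc, n₀, fun n hn => ⟨?_, hup n⟩⟩
    rw [N_eq]
    exact h n hn

end Pool.Agent.Results.MP_0b7501_nt.OrderFourFiveSix
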