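import Mathlib
import Pool.Agent.Helper153.FacR
import Pool.Agent.Helper153.FacG
import Pool.Agent.Results.MP_0b7501_nt.OrderFourFiveSix

set_option autoImplicit false

namespace Pool.Agent.Results.MP_0b7501_nt.AllOrders

open Finset

/-- `m` has a representation of length `k`: a set of `k` positive integers with largest element
`m` such that the product of the factorials of its elements is a perfect square. -/
def HasRep (m k : ℕ) : Prop :=
  ∃ s : Finset ℕ, s.card = k ∧ m ∈ s ∧ (∀ a ∈ s, 1 ≤ a ∧ a ≤ m) ∧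
    IsSquare (∏ a ∈ s, a.factorial)

/-- `m ∈ D_k`: the least `j ≥ 2` for which `m` has a representation of length `j` is `k`. -/
def InD (k m : ℕ) : Prop :=
  2 ≤ k ∧ HasRep m k ∧ ∀ j, 2 ≤ j → j < k → ¬ HasRep m j

open Classical in
/-- the counting function `N_k(n)` of `D_k` -/
noncomputable def N (k n : ℕ) : ℕ := ((Finset.Icc 1 n).filter (fun m => InD k m)).card

/-- the order functions: `g_3(n) = √n`, and `g_k(n) = n` for `k = 4, 5, 6` -/
noncomputable def g (k n : ℕ) : ℝ := if k = 3 then Real.sqrt n else n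

theorem N_eq (k n : ℕ) : N k n = OrderFourFiveSix.N k n := rfl

theorem rep_two {m : ℕ} (h : HasRep m 2) : ∃ b, 1 ≤ b ∧ b < m ∧
    IsSquare (m.factorial * b.factorial) := by
  obtain ⟨s, hs, hm, h1, h2⟩ := h
  have h3 : (s.erase m).card = 1 := by rw [Finset.card_erase_of_mem hm, hs]
  obtain ⟨b, hb⟩ := Finset.card_eq_one.1 h3
  have hbm : b ∈ s.erase m := by rw [hb]; exact Finset.mem_singleton_self b
  rw [Finset.mem_erase] at hbm
  obtain ⟨h4, h5⟩ := h1 b hbm.2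
  refine ⟨b, h4, lt_of_le_of_ne h5 hbm.1, ?_⟩
  rw [← Finset.mul_prod_erase s _ hm, hb, Finset.prod_singleton] at h2
  exact h2

theorem rep_three {m : ℕ} (h : HasRep m 3) : ∃ c b, 1 ≤ c ∧ c < b ∧ b < m ∧
    IsSquare (m.factorial * b.factorial * c.factorial) := by
  obtain ⟨s, hs, hm, h1, h2⟩ := h
  have h3 : (s.erase m).card = 2 := by rw [Finset.card_erase_of_mem hm, hs]
  obtain ⟨x, y, hxy, hb⟩ := Finset.card_eq_two.1 h3
  have hx : x ∈ s.erase m := by rw [hb]; simp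
  have hy : y ∈ s.erase m := by rw [hb]; simp
  rw [Finset.mem_erase] at hx hy
  obtain ⟨hx1, hx2⟩ := h1 x hx.2
  obtain ⟨hy1, hy2⟩ := h1 y hy.2
  rw [← Finset.mul_prod_erase s _ hm, hb, Finset.prod_pair hxy] at h2
  rcases lt_or_gt_of_ne hxy with h | h
  · refine ⟨x, y, hx1, h, lt_of_le_of_ne hy2 hy.1, ?_⟩
    rw [mul_assoc, mul_comm y.factorial]; exact h2
  · refine ⟨y, x, hy1, h, lt_of_le_of_ne hx2 hx.1, ?_⟩
    rw [mul_assoc]; exact h2

theorem isSquare_of_mul_sq {a b : ℕ} (hb : b ≠ 0) (h : IsSquare (a * (b * b))) : IsSquare a := by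
  obtain ⟨r, hr⟩ := h
  have h1 : b ∣ r := by
    have : b ^ 2 ∣ r ^ 2 := ⟨a, by rw [pow_two r, ← hr]; ring⟩
    exact (Nat.pow_dvd_pow_iff (by norm_num)).1 this
  obtain ⟨s, rfl⟩ := h1
  refine ⟨s, ?_⟩
  have h2 : 0 < b * b := Nat.mul_pos (Nat.pos_of_ne_zero hb) (Nat.pos_of_ne_zero hb)
  apply Nat.eq_of_mul_eq_mul_right h2
  rw [hr]; ring

theorem block_one {m b c : ℕ} (hb : b + 1 = m)
    (h : IsSquare (m.factorial * b.factorial * c.factorial)) : IsSquare (m * c.factorial) := by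
  apply isSquare_of_mul_sq (Nat.factorial_ne_zero b)
  subst hb
  rw [Nat.factorial_succ] at h
  convert h using 1
  ring

theorem upper_three : ∃ C : ℝ, 0 < C ∧ ∀ n : ℕ, (N 3 n : ℝ) ≤ C * Real.sqrt n := by
  classical
  obtain ⟨C₁, hC₁, h₁⟩ := Helper153.One.count_one Helper601.theta_half
  obtain ⟨C₂, hC₂, h₂⟩ := Helper153.Fac.bad_count
  refine ⟨C₁ + C₂, by positivity, fun n => ?_⟩
  set S := (Finset.Icc 1 n).filter (fun m => InD 3 m) with hS
  set S₁ := S.filter (fun m => ∃ c : ℕ, IsSquare (m * c.factorial)) with hS₁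
  set S₂ := S.filter (fun m => ∃ t c : ℕ, Helper153.Fac.Bad m t c) with hS₂
  have hsub : S ⊆ S₁ ∪ S₂ := by
    intro m hm
    have hm' := hm
    rw [hS, Finset.mem_filter] at hm'
    obtain ⟨-, -, h3, -⟩ := hm'
    obtain ⟨c, b, hc, hcb, hbm, hsq⟩ := rep_three h3
    rw [Finset.mem_union]
    by_cases hb : b + 1 = m
    · left
      exact Finset.mem_filter.2 ⟨hm, c, block_one hb hsq⟩
    · right
      refine Finset.mem_filter.2 ⟨hm, m - b, c, by omega, by omega, ?_⟩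
      rw [show m - (m - b) = b by omega]
      exact hsq
  have a1 := h₁ n S₁ (fun m hm => by
    rw [hS₁, Finset.mem_filter] at hm
    obtain ⟨h3, h4⟩ := hm
    rw [hS, Finset.mem_filter, Finset.mem_Icc] at h3
    exact ⟨h3.1.1, h3.1.2, h4⟩)
  have a2 := h₂ n S₂ (fun m hm => by
    rw [hS₂, Finset.mem_filter] at hm
    obtain ⟨h3, h4⟩ := hm
    rw [hS, Finset.mem_filter, Finset.mem_Icc] at h3
    exact ⟨h3.1.1, h3.1.2, h4⟩)
  have h5 : S.card ≤ S₁.card + S₂.card :=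
    (Finset.card_le_card hsub).trans (Finset.card_union_le _ _)
  have h6 : (S.card : ℝ) ≤ S₁.card + S₂.card := by exact_mod_cast h5
  have hN : (N 3 n : ℝ) = S.card := by
    unfold N
    rw [hS]
  rw [hN]
  have h7 : (n : ℝ) ^ (499 / 1000 : ℝ) ≤ Real.sqrt n := by
    rcases Nat.eq_zero_or_pos n with h0 | h0
    · subst h0
      rw [Nat.cast_zero, Real.zero_rpow (by norm_num), Real.sqrt_zero]
    · rw [Real.sqrt_eq_rpow]
      apply Real.rpow_le_rpow_of_exponent_le _ (by norm_num)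
      exact_mod_cast h0
  have h8 := mul_le_mul_of_nonneg_left h7 hC₂.le
  linarith

theorem in_three {r : ℕ} (hr : 2 ≤ r)
    (h : ¬ ∃ t c : ℕ, Helper153.Fac.Bad (2 * r ^ 2) t c) : InD 3 (2 * r ^ 2) := by
  have hr4 : 4 ≤ r ^ 2 := by nlinarith
  refine ⟨by norm_num, ?_, ?_⟩
  · refine ⟨{2, 2 * r ^ 2 - 1, 2 * r ^ 2}, ?_, by simp, ?_, ?_⟩
    · rw [Finset.card_eq_three]
      exact ⟨2, 2 * r ^ 2 - 1, 2 * r ^ 2, by omega, by omega, by omega, rfl⟩
    · intro a ha
      simp only [Finset.mem_insert, Finset.mem_singleton] at ha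
      rcases ha with rfl | rfl | rfl <;> omega
    · rw [Finset.prod_insert (by simp only [Finset.mem_insert, Finset.mem_singleton]; omega),
        Finset.prod_pair (by omega)]
      obtain ⟨k, hk⟩ : ∃ k, 2 * r ^ 2 = k + 1 := ⟨2 * r ^ 2 - 1, by omega⟩
      rw [show 2 * r ^ 2 - 1 = k by omega]
      refine ⟨2 * r * k.factorial, ?_⟩
      rw [show Nat.factorial 2 = 2 from rfl, hk, Nat.factorial_succ, ← hk]
      ring
  · intro j hj2 hj3 hrep
    have hj : j = 2 := by omega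
    subst hj
    obtain ⟨b, hb1, hbm, hsq⟩ := rep_two hrep
    by_cases hb : b + 1 = 2 * r ^ 2
    · have h1 : IsSquare (2 * r ^ 2 * Nat.factorial 0) := by
        apply block_one hb
        simpa using hsq
      rw [Nat.factorial_zero, mul_one] at h1
      have h2 : IsSquare (2 : ℕ) := by
        apply isSquare_of_mul_sq (b := r) (by omega)
        rw [← pow_two]; exact h1
      obtain ⟨s, hs⟩ := h2
      have : s < 2 := by nlinarith
      interval_cases s <;> omega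
    · refine h ⟨2 * r ^ 2 - b, 0, by omega, by omega, ?_⟩
      rw [show 2 * r ^ 2 - (2 * r ^ 2 - b) = b by omega, Nat.factorial_zero, mul_one]
      exact hsq

theorem lower_three : ∃ c : ℝ, 0 < c ∧ ∃ n₀ : ℕ, ∀ n : ℕ, n₀ ≤ n →
    c * Real.sqrt n ≤ (N 3 n : ℝ) := by
  classical
  obtain ⟨C₂, hC₂, h₂⟩ := Helper153.Fac.bad_count
  obtain ⟨n₁, hn₁⟩ := Helper153.Fac.rpow_large (8 * (C₂ + 2)) (1 / 1000) (by norm_num)
  refine ⟨1 / 8, by norm_num, n₁ + 1, fun n hn => ?_⟩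
  have hn1 : (1 : ℝ) ≤ n := by exact_mod_cast (by omega : 1 ≤ n)
  set R := Nat.sqrt (n / 2) with hR
  set T := (Finset.Icc 2 R).image (fun r => 2 * r ^ 2) with hT
  have hinj : Set.InjOn (fun r : ℕ => 2 * r ^ 2) (Finset.Icc 2 R : Set ℕ) := by
    intro a _ b _ hab
    simp only at hab
    have : a ^ 2 = b ^ 2 := by omega
    exact Nat.pow_left_injective (n := 2) (by norm_num) this
  have hTcard : T.card = R - 1 := by
    rw [hT, Finset.card_image_of_injOn hinj, Nat.card_Icc]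
    omega
  have hTn : ∀ m ∈ T, 1 ≤ m ∧ m ≤ n := by
    intro m hm
    rw [hT, Finset.mem_image] at hm
    obtain ⟨r, hr, rfl⟩ := hm
    rw [Finset.mem_Icc] at hr
    have h1 : r ^ 2 ≤ n / 2 := by
      have h2 : r ^ 2 ≤ R ^ 2 := Nat.pow_le_pow_left hr.2 2
      have h3 : R ^ 2 ≤ n / 2 := by rw [hR, pow_two]; exact Nat.sqrt_le (n / 2)
      omega
    have h4 : 4 ≤ r ^ 2 := by nlinarith [hr.1]
    omega
  set B := T.filter (fun m => ∃ t c : ℕ, Helper153.Fac.Bad m t c) with hB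
  have hBcard := h₂ n B (fun m hm => by
    rw [hB, Finset.mem_filter] at hm
    exact ⟨(hTn m hm.1).1, (hTn m hm.1).2, hm.2⟩)
  have hsub : T \ B ⊆ (Finset.Icc 1 n).filter (fun m => InD 3 m) := by
    intro m hm
    rw [Finset.mem_sdiff] at hm
    obtain ⟨hmT, hmB⟩ := hm
    have h1 := hTn m hmT
    refine Finset.mem_filter.2 ⟨Finset.mem_Icc.2 h1, ?_⟩
    have h2 := hmT
    rw [hT, Finset.mem_image] at h2
    obtain ⟨r, hr, rfl⟩ := h2
    rw [Finset.mem_Icc] at hr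
    apply in_three hr.1
    intro hbad
    exact hmB (Finset.mem_filter.2 ⟨hmT, hbad⟩)
  have hN : T.card ≤ N 3 n + B.card := by
    have h1 : (T \ B).card ≤ N 3 n := by
      unfold N
      convert Finset.card_le_card hsub
    have h2 : T.card ≤ (T \ B).card + B.card := by
      rw [Finset.card_sdiff_add_card]
      exact Finset.card_le_card Finset.subset_union_left
    omega
  have hNr : (T.card : ℝ) ≤ N 3 n + B.card := by exact_mod_cast hN
  -- size of `R`
  have hRlow : Real.sqrt n / 2 - 1 ≤ R := by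
    have h1 : n / 2 < (R + 1) ^ 2 := by rw [hR, pow_two]; exact Nat.lt_succ_sqrt (n / 2)
    have h2 : n < 2 * (R + 1) ^ 2 := by omega
    have h3 : (n : ℝ) < 2 * ((R : ℝ) + 1) ^ 2 := by exact_mod_cast h2
    have h4 : Real.sqrt n ≤ 2 * ((R : ℝ) + 1) := by
      rw [Real.sqrt_le_left (by positivity)]
      nlinarith [sq_nonneg ((R : ℝ) + 1)]
    linarith
  have hTr : (R : ℝ) - 1 ≤ T.card := by
    rw [hTcard]
    have : R ≤ (R - 1) + 1 := by omega
    have h2 : (R : ℝ) ≤ ((R - 1 : ℕ) : ℝ) + 1 := by exact_mod_cast this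
    linarith
  have h9 : Real.sqrt n = (n : ℝ) ^ (1 / 1000 : ℝ) * (n : ℝ) ^ (499 / 1000 : ℝ) := by
    rw [Real.sqrt_eq_rpow, ← Real.rpow_add (by linarith)]; norm_num
  have h10 := hn₁ n (by omega)
  have h11 : 1 ≤ (n : ℝ) ^ (499 / 1000 : ℝ) := Real.one_le_rpow hn1 (by norm_num)
  have h12 : 8 * (C₂ + 2) * (n : ℝ) ^ (499 / 1000 : ℝ) ≤ Real.sqrt n := by
    rw [h9]
    exact mul_le_mul_of_nonneg_right h10 (by linarith)
  nlinarith

/-- The orders of growth of `N_3, N_4, N_5, N_6`: `N_3(n) = Θ(√n)` and `N_k(n) = Θ(n)` for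
`k = 4, 5, 6`. -/
theorem result : ∀ k : ℕ, 3 ≤ k → k ≤ 6 → ∃ c C : ℝ, 0 < c ∧ c ≤ C ∧ ∃ n₀ : ℕ, ∀ n : ℕ, n₀ ≤ n →
    c * g k n ≤ (N k n : ℝ) ∧ (N k n : ℝ) ≤ C * g k n := by
  intro k hk3 hk6
  by_cases hk : k = 3
  · subst hk
    obtain ⟨C, hC, hup⟩ := upper_three
    obtain ⟨c, hc, n₀, hlo⟩ := lower_three
    refine ⟨min c C, C, lt_min hc hC, min_le_right _ _, n₀, fun n hn => ?_⟩
    simp only [g, if_true]
    refine ⟨?_, hup n⟩
    exact (mul_le_mul_of_nonneg_right (min_le_left _ _) (Real.sqrt_nonneg _)).trans (hlo n hn)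
  · obtain ⟨c, hc, n₀, h⟩ := OrderFourFiveSix.result k (by omega)
    refine ⟨min c 1, 1, lt_min hc one_pos, min_le_right _ _, n₀, fun n hn => ?_⟩
    obtain ⟨h1, h2⟩ := h n hn
    simp only [g, if_neg hk, one_mul]
    rw [N_eq]
    exact ⟨(mul_le_mul_of_nonneg_right (min_le_left _ _) (Nat.cast_nonneg n)).trans h1, h2⟩

end Pool.Agent.Results.MP_0b7501_nt.AllOrders
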